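import Mathlib

/-!
# OL, part CS: a translation invariant polynomial with a constant root is zero
-/

set_option autoImplicit false

open Polynomial Finset DirectSum

namespace Pool.Agent.Helper43.OL

theorem trans_zero {K : Type} [Field K] [Algebra ℂ K] {D : Derivation ℂ K K} {p : K[X]}
    (hD : ∀ i, D (p.coeff i) = (i + 1) * p.coeff (i + 1)) {u : K} (hu : D u = 0)
    (h : p.eval u = 0) : p = 0 := by
  have : CharZero K := charZero_of_injective_algebraMap (algebraMap ℂ K).injective
  induction hn : p.natDegree using Nat.strong_induction_on generalizing p with
  | _ n ih =>
    have hder : (derivative p).eval u = 0 := by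
      have h1 : D (p.eval u) = (derivative p).eval u := by
        rw [eval_eq_sum_range, map_sum,
          eval_eq_sum_range' (p := derivative p) (n := p.natDegree + 1)
            (lt_of_le_of_lt (natDegree_derivative_le p) (by omega))]
        refine Finset.sum_congr rfl fun i _ => ?_
        rw [Derivation.leibniz, Derivation.leibniz_pow, hu, hD, coeff_derivative]
        simp only [smul_zero, smul_eq_mul, zero_add]
        ring
      rw [← h1, h, map_zero]
    have h0 : derivative p = 0 := by
      rcases Nat.eq_zero_or_pos p.natDegree with h2 | h2
      · rw [eq_C_of_natDegree_eq_zero h2, derivative_C]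
      · refine ih (derivative p).natDegree ?_ (p := derivative p) ?_ hder rfl
        · rw [← hn]
          exact natDegree_derivative_lt h2.ne'
        · intro i
          rw [coeff_derivative, coeff_derivative]
          have e1 : p.coeff (i + 1) * ((i : K) + 1) = (i + 1 : ℕ) • p.coeff (i + 1) := by
            rw [nsmul_eq_mul]; push_cast; ring
          rw [e1, map_nsmul, hD, nsmul_eq_mul]
          push_cast
          ring
    have h2 := Polynomial.derivative_eq_zero.1 h0
    rw [eq_C_of_natDegree_eq_zero h2] at h ⊢
    rw [eval_C] at h
    rw [h, C_0]

end Pool.Agent.Helper43.OL
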